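import Mathlib
import Pool.Agent.R758.Tomo.Base

/-!
MP_093203_gt. A convex body in `ℝ³` which is not a ball and all of whose hyperplane projections are
translates of completely symmetric sets.

The body has the support function `h(x) = |x| + x₀x₁x₂ / (10 |x|²)`. In every plane through the
origin the cubic form `x₀x₁x₂` is the sum of `|x|²` times a linear form, which disappears after a
translation, and of a harmonic cubic form, which is invariant under the rotation by `2π/3`.
-/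

set_option autoImplicit false
set_option linter.unusedSectionVars false

open MeasureTheory Set Metric
open scoped RealInnerProductSpace

namespace Pool.Agent.Results.MP_093203_gt.NotBall

open Pool.Agent.R758.Tomo

/-- Three dimensional Euclidean space. -/
abbrev E3 := EuclideanSpace ℝ (Fin 3)

/-- `B` is the translate by some vector of a completely symmetric convex body. -/
def IsTranslateOfCS {V : Type*} [NormedAddCommGroup V] [InnerProductSpace ℝ V]
    [FiniteDimensional ℝ V] [MeasurableSpace V] [BorelSpace V] (B : Set V) : Prop :=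
  ∃ (A : Set V) (v : V), IsConvexBody A ∧ CompletelySymmetric A ∧ B = (fun x => x + v) '' A

/-- The cubic form `x₀x₁x₂`. -/
def Y (x : E3) : ℝ := x 0 * x 1 * x 2

/-- The support function. -/
noncomputable def hh (x : E3) : ℝ := ‖x‖ + (1 / 10) * Y x / ‖x‖ ^ 2

theorem normsq (x : E3) : ‖x‖ ^ 2 = x 0 ^ 2 + x 1 ^ 2 + x 2 ^ 2 := by
  rw [EuclideanSpace.norm_sq_eq, Fin.sum_univ_three]
  simp

theorem inner3 (x y : E3) : ⟪x, y⟫ = x 0 * y 0 + x 1 * y 1 + x 2 * y 2 := by
  rw [PiLp.inner_apply, Fin.sum_univ_three]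
  simp only [RCLike.inner_apply, conj_trivial]
  ring

theorem Y_smul (t : ℝ) (x : E3) : Y (t • x) = t ^ 3 * Y x := by
  simp only [Y, PiLp.smul_apply, smul_eq_mul]; ring

theorem hh_smul {t : ℝ} (ht : 0 ≤ t) (x : E3) : hh (t • x) = t * hh x := by
  unfold hh
  rw [norm_smul, Y_smul, Real.norm_of_nonneg ht]
  rcases eq_or_lt_of_le ht with h | h
  · rw [← h]; simp
  · by_cases hx : x = 0
    · rw [hx]; simp
    · have hn : 0 < ‖x‖ := norm_pos_iff.2 hx
      field_simp

theorem coord_le (x : E3) (i : Fin 3) : |x i| ≤ ‖x‖ := by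
  have := PiLp.norm_apply_le x i
  rwa [Real.norm_eq_abs] at this

theorem abs_Y_le (x : E3) : |Y x| ≤ ‖x‖ ^ 3 := by
  have h0 := coord_le x 0
  have h1 := coord_le x 1
  have h2 := coord_le x 2
  calc |Y x| = |x 0| * |x 1| * |x 2| := by rw [Y, abs_mul, abs_mul]
    _ ≤ ‖x‖ * ‖x‖ * ‖x‖ := by gcongr
    _ = ‖x‖ ^ 3 := by ring

theorem hh_bounds (x : E3) : (1 / 2) * ‖x‖ ≤ hh x ∧ hh x ≤ 2 * ‖x‖ := by
  by_cases hx : x = 0
  · rw [hx]; simp [hh]
  · have hn : 0 < ‖x‖ := norm_pos_iff.2 hx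
    have h1 := abs_le.1 (abs_Y_le x)
    have h2 : (1 / 10) * Y x / ‖x‖ ^ 2 ≤ (1 / 10) * ‖x‖ := by
      rw [div_le_iff₀ (by positivity)]
      nlinarith [h1.2]
    have h3 : -((1 / 10) * ‖x‖) ≤ (1 / 10) * Y x / ‖x‖ ^ 2 := by
      rw [le_div_iff₀ (by positivity)]
      nlinarith [h1.1]
    unfold hh
    constructor <;> linarith

/-- The point of the body in the direction of the unit vector `x`. -/
noncomputable def pt (x : E3) : E3 :=
  !₂[x 0 + (1 / 10) * (x 1 * x 2 - 2 * Y x * x 0), x 1 + (1 / 10) * (x 0 * x 2 - 2 * Y x * x 1),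
    x 2 + (1 / 10) * (x 0 * x 1 - 2 * Y x * x 2)]

theorem pt_inner (x z : E3) : ⟪pt x, z⟫ = ⟪x, z⟫ + (1 / 10) *
    (x 1 * x 2 * z 0 + x 0 * x 2 * z 1 + x 0 * x 1 * z 2 - 2 * Y x * ⟪x, z⟫) := by
  rw [inner3, inner3]
  simp [pt]
  ring

theorem ineq (a b c u v w : ℝ) (h1 : a ^ 2 + b ^ 2 + c ^ 2 = 1)
    (h2 : (a + u) ^ 2 + (b + v) ^ 2 + (c + w) ^ 2 = 1) (e0 : |a| ≤ 1) (e1 : |b| ≤ 1)
    (e2 : |c| ≤ 1) (eu : |u| ≤ 2) :
    a * (a + u) + b * (b + v) + c * (c + w) + (1 / 10) * (b * c * (a + u) + a * c * (b + v) +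
      a * b * (c + w) - 2 * (a * b * c) * (a * (a + u) + b * (b + v) + c * (c + w))) ≤
      1 + (1 / 10) * ((a + u) * (b + v) * (c + w)) := by
  have hD : 0 ≤ u ^ 2 + v ^ 2 + w ^ 2 := by positivity
  have hm : |a * b * c| ≤ 1 := by
    rw [abs_mul, abs_mul]
    calc |a| * |b| * |c| ≤ 1 * 1 * 1 := by gcongr
      _ = 1 := by norm_num
  have b2 : |a * v * w| ≤ |v| * |w| := by
    rw [abs_mul, abs_mul]
    calc |a| * |v| * |w| ≤ 1 * |v| * |w| := by gcongr
      _ = |v| * |w| := by ring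
  have b3 : |b * u * w| ≤ |u| * |w| := by
    rw [abs_mul, abs_mul]
    calc |b| * |u| * |w| ≤ 1 * |u| * |w| := by gcongr
      _ = |u| * |w| := by ring
  have b4 : |c * u * v| ≤ |u| * |v| := by
    rw [abs_mul, abs_mul]
    calc |c| * |u| * |v| ≤ 1 * |u| * |v| := by gcongr
      _ = |u| * |v| := by ring
  have b5 : |u * v * w| ≤ 2 * (|v| * |w|) := by
    rw [abs_mul, abs_mul]
    calc |u| * |v| * |w| ≤ 2 * |v| * |w| := by gcongr
      _ = 2 * (|v| * |w|) := by ring
  have hm' := (abs_le.1 hm).2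
  have b2' := (abs_le.1 b2).1
  have b3' := (abs_le.1 b3).1
  have b4' := (abs_le.1 b4).1
  have b5' := (abs_le.1 b5).1
  have c1 : 2 * (|v| * |w|) ≤ v ^ 2 + w ^ 2 := by
    have := sq_nonneg (|v| - |w|)
    have h3 := sq_abs v
    have h4 := sq_abs w
    linarith [this, h3, h4, (by ring : (|v| - |w|) ^ 2 = |v| ^ 2 + |w| ^ 2 - 2 * (|v| * |w|))]
  have c2 : 2 * (|u| * |w|) ≤ u ^ 2 + w ^ 2 := by
    have := sq_nonneg (|u| - |w|)
    have h3 := sq_abs u
    have h4 := sq_abs w
    linarith [this, h3, h4, (by ring : (|u| - |w|) ^ 2 = |u| ^ 2 + |w| ^ 2 - 2 * (|u| * |w|))]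
  have c3 : 2 * (|u| * |v|) ≤ u ^ 2 + v ^ 2 := by
    have := sq_nonneg (|u| - |v|)
    have h3 := sq_abs u
    have h4 := sq_abs v
    linarith [this, h3, h4, (by ring : (|u| - |v|) ^ 2 = |u| ^ 2 + |v| ^ 2 - 2 * (|u| * |v|))]
  have hY : a * b * c * (u ^ 2 + v ^ 2 + w ^ 2) ≤ u ^ 2 + v ^ 2 + w ^ 2 := by
    calc a * b * c * (u ^ 2 + v ^ 2 + w ^ 2) ≤ 1 * (u ^ 2 + v ^ 2 + w ^ 2) := by gcongr
      _ = _ := one_mul _
  have hu2 := sq_nonneg u
  have hv2 := sq_nonneg v
  have hw2 := sq_nonneg w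
  have hin : a * (a + u) + b * (b + v) + c * (c + w) = 1 - (u ^ 2 + v ^ 2 + w ^ 2) / 2 := by
    linear_combination (1 / 2) * h1 + (1 / 2) * h2
  rw [hin]
  have expand : 1 + (1 / 10) * ((a + u) * (b + v) * (c + w)) -
      (1 - (u ^ 2 + v ^ 2 + w ^ 2) / 2 + (1 / 10) * (b * c * (a + u) + a * c * (b + v) +
      a * b * (c + w) - 2 * (a * b * c) * (1 - (u ^ 2 + v ^ 2 + w ^ 2) / 2))) =
      (u ^ 2 + v ^ 2 + w ^ 2) / 2 + (1 / 10) * (a * v * w + b * u * w + c * u * v + u * v * w
        - a * b * c * (u ^ 2 + v ^ 2 + w ^ 2)) := by ring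
  rw [← sub_nonneg, expand]
  linarith

theorem pt_le_unit (x z : E3) (hx : ‖x‖ = 1) (hz : ‖z‖ = 1) : ⟪pt x, z⟫ ≤ hh z := by
  rw [pt_inner, inner3, hh, hz]
  have h1 := normsq x
  have h2 := normsq z
  rw [hx] at h1
  rw [hz] at h2
  have e0 : |x 0| ≤ 1 := hx ▸ coord_le x 0
  have e1 : |x 1| ≤ 1 := hx ▸ coord_le x 1
  have e2 : |x 2| ≤ 1 := hx ▸ coord_le x 2
  have e3 : |z 0| ≤ 1 := hz ▸ coord_le z 0
  have eu : |z 0 - x 0| ≤ 2 := by
    have := abs_sub (z 0) (x 0)
    linarith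
  have key := ineq (x 0) (x 1) (x 2) (z 0 - x 0) (z 1 - x 1) (z 2 - x 2) (by linarith)
    (by simp only [add_sub_cancel]; linarith) e0 e1 e2 eu
  simp only [add_sub_cancel] at key
  unfold Y
  have hone : (1 / 10 : ℝ) * (z 0 * z 1 * z 2) / 1 ^ 2 = (1 / 10 : ℝ) * (z 0 * z 1 * z 2) := by
    ring
  rw [hone]
  exact key

theorem supp (x : E3) : ∃ y ∈ body hh, ⟪y, x⟫ = hh x := by
  by_cases hx : x = 0
  · refine ⟨0, fun z => ?_, ?_⟩
    · rw [inner_zero_left]
      have := (hh_bounds z).1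
      have := norm_nonneg z
      linarith
    · rw [hx]; simp [hh]
  · have hn : 0 < ‖x‖ := norm_pos_iff.2 hx
    set x' := ‖x‖⁻¹ • x with hx'
    have h1 : ‖x'‖ = 1 := by rw [hx', norm_smul, norm_inv, norm_norm, inv_mul_cancel₀ hn.ne']
    have hxx : x = ‖x‖ • x' := by rw [hx', smul_inv_smul₀ hn.ne']
    refine ⟨pt x', fun z => ?_, ?_⟩
    · by_cases hz : z = 0
      · rw [hz]; simp [hh]
      · have hm : 0 < ‖z‖ := norm_pos_iff.2 hz
        set z' := ‖z‖⁻¹ • z with hz'
        have h2 : ‖z'‖ = 1 := by rw [hz', norm_smul, norm_inv, norm_norm, inv_mul_cancel₀ hm.ne']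
        have hzz : z = ‖z‖ • z' := by rw [hz', smul_inv_smul₀ hm.ne']
        rw [hzz, inner_smul_right, hh_smul hm.le]
        exact mul_le_mul_of_nonneg_left (pt_le_unit x' z' h1 h2) hm.le
    · conv_lhs => rw [hxx]
      conv_rhs => rw [hxx]
      rw [inner_smul_right, hh_smul hn.le]
      congr 1
      rw [pt_inner, real_inner_self_eq_norm_sq, h1, hh, h1, Y]
      ring

/-- The rotation by `2π/3`. -/
noncomputable def om : Circle := Circle.exp (2 * Real.pi / 3)

theorem om_coe : (om : ℂ) = ⟨-1 / 2, √3 / 2⟩ := by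
  have h1 : (2 * Real.pi / 3) = Real.pi - Real.pi / 3 := by ring
  rw [om, Circle.coe_exp, Complex.exp_mul_I, ← Complex.ofReal_cos, ← Complex.ofReal_sin, h1,
    Real.cos_pi_sub, Real.sin_pi_sub, Real.cos_pi_div_three, Real.sin_pi_div_three]
  apply Complex.ext
  · simp; norm_num
  · simp

theorem om_im : (om : ℂ).im ≠ 0 := by
  rw [om_coe]
  simp

theorem om_cube : (om : ℂ) ^ 3 = 1 := by
  rw [om, Circle.coe_exp, ← Complex.exp_nat_mul, ← Complex.exp_two_pi_mul_I]
  congr 1
  push_cast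
  ring

/-- **Counterexample.** There is a convex body in `ℝ³` which is not a ball and all of whose
orthogonal projections onto planes are translates of completely symmetric convex bodies. -/
theorem result : ∃ K : Set E3, IsConvexBody K ∧ ¬ IsBall K ∧
    ∀ u : E3, ‖u‖ = 1 → IsTranslateOfCS (shadow u K) := by
  have hK : IsConvexBody (body hh) :=
    body_isConvexBody (by norm_num : (0 : ℝ) < 1 / 2) (fun x => (hh_bounds x).1)
      (fun x => (hh_bounds x).2)
  refine ⟨body hh, hK, ?_, ?_⟩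
  · rintro ⟨c, r, hr, hb⟩
    have hsup := support_ball supp hr hb
    have hc : ∀ i : Fin 3, c i = 0 ∧ r = 1 := by
      intro i
      have h1 := hsup (EuclideanSpace.single i 1)
      have h2 := hsup (-(EuclideanSpace.single i 1))
      have hY1 : Y (EuclideanSpace.single i (1 : ℝ)) = 0 := by
        fin_cases i <;> simp [Y]
      have hY2 : Y (-(EuclideanSpace.single i (1 : ℝ))) = 0 := by
        fin_cases i <;> simp [Y]
      have n1 : ‖(EuclideanSpace.single i (1 : ℝ) : E3)‖ = 1 := by simp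
      rw [hh, hY1, n1, EuclideanSpace.inner_single_right] at h1
      rw [hh, hY2, norm_neg, n1, inner_neg_right, EuclideanSpace.inner_single_right] at h2
      simp at h1 h2
      constructor <;> linarith
    have h3 := hsup !₂[1, 1, 1]
    rw [inner3, hh, (hc 0).1, (hc 1).1, (hc 2).1, (hc 0).2] at h3
    have hpos : 0 < ‖(!₂[1, 1, 1] : E3)‖ ^ 2 := by
      rw [normsq]; simp; norm_num
    have h4 : (1 / 10) * Y (!₂[1, 1, 1] : E3) / ‖(!₂[1, 1, 1] : E3)‖ ^ 2 = 0 := by linarith
    rw [div_eq_zero_iff] at h4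
    rcases h4 with h4 | h4
    · simp [Y] at h4
    · exact hpos.ne' h4
  · intro u hu
    set H : Submodule ℝ E3 := (ℝ ∙ u)ᗮ with hH
    have hu0 : u ≠ 0 := by intro h; rw [h, norm_zero] at hu; exact zero_ne_one hu
    have hfin : Module.finrank ℝ H = 2 := by
      have : Fact (Module.finrank ℝ E3 = 2 + 1) := ⟨by simp⟩
      exact Submodule.finrank_orthogonal_span_singleton hu0
    have hbas : Module.finrank ℝ ℂ = Module.finrank ℝ H := by
      rw [hfin, Complex.finrank_real_complex]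
    let φ : ℂ ≃ₗᵢ[ℝ] H :=
      (stdOrthonormalBasis ℝ ℂ).equiv (stdOrthonormalBasis ℝ H) (finCongr hbas)
    -- coordinates
    set e : E3 := (φ 1 : E3) with he
    set f : E3 := (φ Complex.I : E3) with hf
    have hφ : ∀ z : ℂ, ((φ z : H) : E3) = z.re • e + z.im • f := by
      intro z
      have : z = z.re • (1 : ℂ) + z.im • Complex.I := by
        simp
      conv_lhs => rw [this, map_add, map_smul, map_smul]
      rfl
    set a := e 0 * e 1 * e 2 with ha
    set b := e 0 * e 1 * f 2 + e 0 * f 1 * e 2 + f 0 * e 1 * e 2 with hb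
    set c := e 0 * f 1 * f 2 + f 0 * e 1 * f 2 + f 0 * f 1 * e 2 with hc
    set d := f 0 * f 1 * f 2 with hd
    set p := (a - c) / 4 with hp
    set α := (3 * a + c) / 4 with hα
    set q := (b - d) / 4 with hq
    set β := (b + 3 * d) / 4 with hβ
    have hY : ∀ z : ℂ, Y ((φ z : H) : E3) = (α * z.re + β * z.im) * ‖z‖ ^ 2 +
        (p * (z ^ 3).re + q * (z ^ 3).im) := by
      intro z
      rw [hφ, ← Complex.normSq_eq_norm_sq, Complex.normSq_apply]
      simp only [Y, PiLp.add_apply, PiLp.smul_apply, smul_eq_mul, pow_succ, pow_zero, one_mul,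
        Complex.mul_re, Complex.mul_im]
      rw [hp, hα, hq, hβ, ha, hb, hc, hd]
      ring
    set v : H := φ (⟨(1 / 10) * α, (1 / 10) * β⟩ : ℂ) with hv
    set g : H → ℝ := fun x => hh (x : E3) - ⟪v, x⟫ with hg
    have hnorm : ∀ z : ℂ, ‖((φ z : H) : E3)‖ = ‖z‖ := by
      intro z
      exact φ.norm_map z
    have hgφ : ∀ z : ℂ, g (φ z) = ‖z‖ + (1 / 10) * (p * (z ^ 3).re + q * (z ^ 3).im) / ‖z‖ ^ 2 := by
      intro z
      simp only [hg, hh, hv]
      rw [hnorm, hY, φ.inner_map_map]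
      by_cases hz : z = 0
      · rw [hz]; simp
      · have hn : 0 < ‖z‖ := norm_pos_iff.2 hz
        rw [Complex.inner]
        simp
        field_simp
        ring
    have hinv : ∀ x : H, g (rot φ om x) = g x := by
      intro x
      obtain ⟨z, rfl⟩ := φ.surjective x
      rw [rot_apply, hgφ, hgφ, mul_pow, om_cube, one_mul, norm_mul, Circle.norm_coe, one_mul]
    have hsh : shadow u (body hh) = (fun x => x + v) '' body g := ?_
    · refine ⟨body g, v, ?_, completelySymmetric_of_rot φ om_im (rot_body φ om hinv), hsh⟩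
      apply isConvexBody_of_translate (v := v)
      rw [← hsh, shadow, proj_body hK.1 supp]
      exact body_isConvexBody (by norm_num : (0 : ℝ) < 1 / 2) (fun x => (hh_bounds (x : E3)).1)
        (fun x => (hh_bounds (x : E3)).2)
    unfold shadow
    rw [proj_body hK.1 supp]
    ext y
    constructor
    · intro hy
      refine ⟨y - v, fun x => ?_, by simp⟩
      rw [inner_sub_left]
      have := hy x
      simp only [hg]
      linarith
    · rintro ⟨w, hw, rfl⟩ x
      have := hw x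
      rw [inner_add_left]
      simp only [hg] at this
      linarith

end Pool.Agent.Results.MP_093203_gt.NotBall
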